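import Pool.Agent.MP_aaf698_co.Mg.Hard

open Pool.Agent.MP_aaf698_co

/-- A loopless multigraph is a palette multigraph exactly when it has a good splitting, and
recognising loopless palette multigraphs is NP-complete. -/
theorem Pool.Agent.Results.MP_aaf698_co.Full.result :
    (∀ (V : Type) (m : V → V → ℕ), (∀ u, m u u = 0) → (Realizable m ↔
      ∃ (W : Type) (_ : Finite W) (K : SimpleGraph W) (π : W → V), GoodSplitting m K π)) ∧
    N793a5b8e.IsCompleteFor N68a2faeb.NP PAL :=
  ⟨fun _ m _ => realizable_iff_splitting m, pal_complete⟩
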