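import Pool.Agent.MP_aaf698_co.Core

open Pool.Agent.MP_aaf698_co

/-- A multigraph is a palette multigraph exactly when it has a good splitting. -/
theorem Pool.Agent.Results.MP_aaf698_co.Matchings.result (V : Type) (m : V → V → ℕ) :
    Realizable m ↔
      ∃ (W : Type) (_ : Finite W) (K : SimpleGraph W) (π : W → V), GoodSplitting m K π :=
  realizable_iff_splitting m
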