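import Pool.Agent.MP_aaf698_co.Mg.Hard

open Pool.Agent.MP_aaf698_co

/-- Recognising loopless palette multigraphs is NP-complete. -/
theorem Pool.Agent.Results.MP_aaf698_co.NPComplete.result :
    N793a5b8e.IsCompleteFor N68a2faeb.NP PAL :=
  pal_complete
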