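import Pool.Agent.MP_aaf698_co.Simple

open Pool.Agent.MP_aaf698_co

open Classical in
/-- A finite simple graph is a palette multigraph exactly when an edge leaves every pair of
vertices. -/
theorem Pool.Agent.Results.MP_aaf698_co.SimpleGraphs.result (V : Type) [Finite V]
    (G : SimpleGraph V) :
    Realizable (fun u v => if G.Adj u v then 1 else 0) ↔
      ∀ u v, u ≠ v → ∃ w, w ≠ u ∧ w ≠ v ∧ (G.Adj u w ∨ G.Adj v w) :=
  realizable_simple G
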